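import Mathlib
import Pool.Agent.Helper52.VBDefs
import Pool.Agent.Helper52.VBLarge
import Pool.Agent.Helper53.BN.Spec
import Pool.Agent.Helper69.WV.All

set_option autoImplicit false

open Pool.Agent.Helper52.VB

namespace Pool.Agent.Results.MP_e0c419_co.AllButFinitelyMany

/-- For every block size `k`, the parity condition decides the existence of a `VB(v, k, l)` design
for all but finitely many pairs `(v, l)` with `l ≥ 2`. -/
theorem result (k : ℕ) (hk : 2 ≤ k) :
    {p : ℕ × ℕ | 2 ≤ p.1 ∧ 2 ≤ p.2 ∧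
      ¬ ((∃ D : Multiset (Multiset (Fin p.1)), IsVB p.1 k p.2 D) ↔
        (Even k ∨ Even (p.2 * (p.1 - 1))))}.Finite := by
  have hmain : ∃ v0, ∀ v, v0 ≤ v → ∀ l, 2 ≤ l → 1 ≤ v →
      ((∃ D : Multiset (Multiset (Fin v)), IsVB v k l D) ↔ (Even k ∨ Even (l * (v - 1)))) := by
    rcases Nat.lt_or_ge k 3 with hk3 | hk3
    · have hk2 : k = 2 := by omega
      subst hk2
      refine ⟨0, fun v _ l _ hv => ⟨fun _ => Or.inl even_two, fun _ => ?_⟩⟩
      obtain ⟨D, hD, hD'⟩ := fill (V := Fin v) (k := 2) (fun _ _ => l) (fun _ _ => rfl)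
        (fun i j _ => by
          have h1 : (1 : ℕ) ∈ Sgrp 2 := AddSubmonoid.subset_closure ⟨1, by decide, by decide, rfl⟩
          have h2 := (Sgrp 2).nsmul_mem h1 l
          simpa using h2)
      exact ⟨D, hD, hD'⟩
    · obtain ⟨v0, hv0⟩ := Pool.Agent.Helper69.WV.main k hk3
      refine ⟨v0, fun v hv l hl hv1 => ⟨?_, fun h => ?_⟩⟩
      · rintro ⟨D, hD⟩
        by_cases h : Even k
        · exact Or.inl h
        · exact Or.inr (parity_nec h hv1 hD)
      · exact Pool.Agent.Helper69.WV.link (hv0 v hv l hl h)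
  obtain ⟨v0, hv0⟩ := hmain
  refine Set.Finite.subset ((Set.finite_Iio v0).prod (Set.finite_Iio (5 * k ^ 2))) ?_
  rintro ⟨v, l⟩ ⟨hv, hl, hne⟩
  simp only at hv hl hne
  refine ⟨?_, ?_⟩
  · by_contra hcon
    simp only [Set.mem_Iio, not_lt] at hcon
    exact hne (hv0 v hcon l hl (by omega))
  · by_contra hcon
    simp only [Set.mem_Iio, not_lt] at hcon
    refine hne (Pool.Agent.Helper53.BN.Spec.spectrum k hk l ?_ v hv)
    have h1 : k ^ 3 ≤ k ^ 4 := Nat.pow_le_pow_right (by omega) (by omega)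
    have h2 : (5 * k ^ 2) ^ 2 ≤ l ^ 2 := Nat.pow_le_pow_left hcon 2
    have h3 : (5 * k ^ 2) ^ 2 = 25 * k ^ 4 := by ring
    omega

end Pool.Agent.Results.MP_e0c419_co.AllButFinitelyMany
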