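import Mathlib
import Pool.Agent.Helper52.VBDefs
import Pool.Agent.Helper53.BN.Eight
import Pool.Agent.Helper53.BN.CountQ
import Pool.Agent.Helper69.QB.BetaSmall
import Pool.Agent.Helper69.QC.Local

/-!
# The possible numbers of blocks of the variance-balanced designs fill an interval

For block size `k ≥ 4` and concurrence `l ≥ 2` the possible numbers of blocks are, up to windows of
width `O(v)` at both ends, all the integers between `l C / K` and `beta k l * C`, where
`C = v (v - 1) / 2`, `K = k (k - 1) / 2` (if `k` or `l (v - 1)` is even; otherwise there are none). For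
all large `v` if `k - 1` divides `l`, and for all large `v` which are `1` modulo some `W` if not, they
are all the integers of this interval with the exception of finitely many distances from the two ends,
which depend only on the residue of `v` modulo `W`; if `v` is `1` modulo `W`, both ends are attained.
-/

set_option autoImplicit false

open Pool.Agent.Helper52.VB Pool.Agent.Helper53.BN Pool.Agent.Helper69.QB Pool.Agent.Helper69.QC
open Pool.Agent.Helper69.QD Pool.Agent.Helper69.QE Pool.Agent.Helper69.QG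

namespace Pool.Agent.Results.MP_e0c419_co.BlockInterval

/-- `b` is the number of blocks of a `VB(v, k, l)` design. -/
def Num (v k l b : ℕ) : Prop :=
  ∃ D : Multiset (Multiset (Fin v)), IsVB v k l D ∧ Multiset.card D = b

/-- Write `C = v (v - 1) / 2`, `K = k (k - 1) / 2`. For `v ≥ k ≥ 4`, `l ≥ 2` the numbers of blocks of
the `VB(v, k, l)` designs lie between `l C / K` and `beta k l * C`. If `k` or `l (v - 1)` is even, then
conversely all the integers between `l C / K + A v` and `beta k l * C - A v` are such numbers. If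
moreover `v ≥ v₀`, and `k - 1 ∣ l` or `v` is `1` modulo `W`, then the numbers of blocks are exactly the
integers `b` of the interval with `b K - l C` not in `E r` and `beta k l * C - b` not in `F r`, where
`r` is the residue of `v` modulo `W`; and for `v` equal to `1` modulo `W` both ends of the interval
occur. The constants `A`, `v₀`, `W` and the finite sets `E r`, `F r` depend only on `k` and `l`. -/
theorem result (k : ℕ) (hk : 4 ≤ k) :
    (∀ l : ℕ, 2 ≤ l → ∃ (A W v₀ : ℕ) (E : ℕ → Finset ℕ) (F : ℕ → Finset ℝ), 0 < W ∧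
      ∀ v : ℕ, k ≤ v →
      (∀ b : ℕ, Num v k l b →
        l * v.choose 2 ≤ b * k.choose 2 ∧ (b : ℝ) ≤ beta k l * (v.choose 2 : ℝ)) ∧
      ((Even k ∨ Even (l * (v - 1))) → ∀ b : ℕ, l * v.choose 2 + A * v ≤ b * k.choose 2 →
        (b : ℝ) + A * v ≤ beta k l * (v.choose 2 : ℝ) → Num v k l b) ∧
      (v₀ ≤ v → (k - 1 ∣ l ∨ v ≡ 1 [MOD W]) → ∀ b : ℕ, Num v k l b ↔
        (l * v.choose 2 ≤ b * k.choose 2 ∧ b * k.choose 2 - l * v.choose 2 ∉ E (v % W)) ∧
          (b : ℝ) ≤ beta k l * (v.choose 2 : ℝ) ∧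
            beta k l * (v.choose 2 : ℝ) - b ∉ F (v % W)) ∧
      (v₀ ≤ v → v ≡ 1 [MOD W] → (∃ b : ℕ, Num v k l b ∧ b * k.choose 2 = l * v.choose 2) ∧
        ∃ b : ℕ, Num v k l b ∧ (b : ℝ) = beta k l * (v.choose 2 : ℝ))) ∧
    (∀ l : ℕ, ((l / (k - 1) : ℕ) : ℝ) ≤ beta k l ∧ beta k l ≤ (l : ℝ) / ((k : ℝ) - 1)) ∧
    (∀ l : ℕ, 1 ≤ l → l ≤ 3 →
      beta k l = 2 * (l : ℝ) / (((k : ℝ) - l) * ((k : ℝ) + l - 1))) ∧
    (∀ q : ℕ, beta k (q * (k - 1) + 1) = q + 2 / ((k : ℝ) * ((k : ℝ) - 1))) ∧
    (k = 4 → ∀ q : ℕ, beta k (q * 3 + 2) = q + 2 / 5) := by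
  have hC : ∀ v : ℕ, v.choose 2 = C2 v := fun v => Nat.choose_two_right v
  have hnum : ∀ v l b : ℕ, Num v k l b ↔ NB k l v b := by
    intro v l b
    constructor
    · rintro ⟨D, hD, rfl⟩
      exact nb_link (by omega : 0 < k) hD
    · exact fun h => link_nb h
  refine ⟨?_, ?_, ?_, ?_, ?_⟩
  · intro l hl
    obtain ⟨c, hc, h⟩ := eight_win k hk
    obtain ⟨A, hA, h'⟩ := h l hl
    obtain ⟨W, A', v₀, E, F, hW, hs⟩ := eight_sets k l (by omega) hl
    refine ⟨⌈A⌉₊, W * (k - 1), v₀, fun r => E (r % W), fun r => F (r % W),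
      Nat.mul_pos hW (by omega), fun v hv => ⟨?_, ?_, ?_, ?_⟩⟩
    · intro b hb
      rw [hnum] at hb
      rw [hC, hC]
      have h1 := lower_bound (by omega) hb
      rw [qq_large (by omega) hv] at h1
      exact ⟨h1, nb_le_beta (by omega) (by omega) hb⟩
    · intro hadm b hb1 hb2
      rw [hC, hC] at hb1
      rw [hC] at hb2
      rw [hnum]
      have hAc : A ≤ (⌈A⌉₊ : ℝ) := Nat.le_ceil A
      have hv0 : (0 : ℝ) ≤ (v : ℝ) := Nat.cast_nonneg v
      have h5 : A * v ≤ (⌈A⌉₊ : ℝ) * v := mul_le_mul_of_nonneg_right hAc hv0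
      have he : ∀ e : ℕ, e ≤ v → A * (e : ℝ) ≤ A * v := fun e he =>
        mul_le_mul_of_nonneg_left (by exact_mod_cast he) hA.le
      have h6 : (l : ℝ) * (C2 v : ℝ) + (⌈A⌉₊ : ℝ) * v ≤ (b : ℝ) * (C2 k : ℝ) := by
        exact_mod_cast hb1
      refine h' v (by omega) hadm b ?_ ?_
      · rw [qq_large (by omega) hv]
        have h7 : e0 k l v ≤ v := by
          unfold e0
          split_ifs <;> omega
        have h8 := min_le_right (c * (C2 v : ℝ)) (A * (e0 k l v : ℝ))
        have h9 := he _ h7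
        linarith
      · have h7 : e2 k l v ≤ v := by
          unfold e2
          split_ifs <;> omega
        have h8 := min_le_right (c * (C2 v : ℝ)) (A * (e2 k l v : ℝ))
        have h9 := he _ h7
        linarith
    · intro hv₀ hmod
      obtain ⟨h1, h2, h3, h4⟩ := hs v hv₀
      have hd : k - 1 ∣ l * (v - 1) ∧ tg k l ∣ v - 1 := by
        rcases hmod with hkl | hmod
        · refine ⟨Dvd.dvd.mul_right hkl (v - 1), ?_⟩
          have ht : tg k l = 1 := gt_triv (by omega) hkl
          rw [ht]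
          exact one_dvd _
        · have hmW : v ≡ 1 [MOD W] := hmod.of_mul_right (k - 1)
          have hmk : v ≡ 1 [MOD (k - 1)] := hmod.of_mul_left W
          refine ⟨Dvd.dvd.mul_left ((Nat.modEq_iff_dvd' (by omega)).1 hmk.symm) l, ?_⟩
          obtain ⟨b, hb, hb'⟩ := (h4 hmW).2
          refine Nat.setGcd_dvd_of_mem ?_
          refine ⟨b, ?_, ?_⟩
          · rw [Nat.sub_add_cancel (by omega)]
            exact hb
          · rw [Nat.sub_add_cancel (by omega), add_zero]
            exact hb'
      have h5 := h3 hd.1 hd.2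
      simp only [hnum, hC]
      rw [Nat.mod_mul_right_mod]
      exact h5
    · intro hv₀ hmod
      have hmW : v ≡ 1 [MOD W] := hmod.of_mul_right (k - 1)
      obtain ⟨-, -, -, h4⟩ := hs v hv₀
      simp only [hnum, hC]
      exact h4 hmW
  · exact fun l => ⟨beta_ge k l (by omega), beta_le k l (by omega)⟩
  · exact fun l h1 h3 => beta_small k l h1 h3 (by omega)
  · intro q
    rw [add_comm]
    exact beta_res_one k q (by omega)
  · intro hk4 q
    subst hk4
    rw [mul_comm q 3]
    exact (beta_four q).2.2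

end Pool.Agent.Results.MP_e0c419_co.BlockInterval
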