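import Pool.Agent.Helper52.VBDefs
import Pool.Agent.Helper52.VB3.Done

set_option autoImplicit false

open Pool.Agent.Helper52.VB

namespace Pool.Agent.Results.MP_e0c419_co.BlockSizeThree

/-- **Block size 3.** For `v ≥ 3` points, concurrence `l` and `b` blocks, a `VB(v, 3, l)` design
with exactly `b` blocks exists iff `l * (v - 1)` is even and, with `C = v.choose 2`,
`l * C / 3 ≤ b ≤ (l / 2) * C` for even `l`, and `l * C / 3 ≤ b ≤ ((l - 1) / 2) * C + ⌊C / 3⌋` for
odd `l`. On `v = 2` points it exists iff `l = 2 * b`. -/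
theorem result :
    (∀ v : ℕ, 3 ≤ v → ∀ l b : ℕ,
      ((∃ D : Multiset (Multiset (Fin v)), IsVB v 3 l D ∧ D.card = b) ↔
        (Even (l * (v - 1)) ∧ l * v.choose 2 ≤ 3 * b ∧
          b ≤ l / 2 * v.choose 2 + l % 2 * (v.choose 2 / 3)))) ∧
    (∀ l b : ℕ, (∃ D : Multiset (Multiset (Fin 2)), IsVB 2 3 l D ∧ D.card = b) ↔ l = 2 * b) :=
  ⟨Pool.Agent.Helper52.VB3.three_up, Pool.Agent.Helper52.VB3.two_points⟩

end Pool.Agent.Results.MP_e0c419_co.BlockSizeThree
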