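import Mathlib
import Pool.Agent.Helper52.VBDefs
import Pool.Agent.Helper53.BN.Spec
import Pool.Agent.Helper69.QH.AllV

/-!
# Variance-balanced designs with large concurrence: existence and the possible numbers of blocks

For `l ≥ 5 k ^ (3/2)` parity is the only condition for the existence of a `VB(v, k, l)` design. For
`k ≥ 4` and large `l` the possible numbers of blocks are known from the least one up to a window at
the top, for all `v ≥ k + 2`, and completely if `k` is `4`, `5` or `7` and `k - 1` divides `l`; for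
fixed `v ≥ k` they are known up to finite sets.
-/

set_option autoImplicit false

open Pool.Agent.Helper52.VB
open Pool.Agent.Helper53.BN (C2 QQ NB nb_link link_nb)

namespace Pool.Agent.Results.MP_e0c419_co.LargeConcurrence

/-- `b` is the number of blocks of a `VB(v, k, l)` design. -/
def Num (v k l b : ℕ) : Prop :=
  ∃ D : Multiset (Multiset (Fin v)), IsVB v k l D ∧ Multiset.card D = b

/-- Variance-balanced designs with large concurrence. Write `C = v (v - 1) / 2`.

(1) For `k, v ≥ 2` and `l² ≥ 25 k³` a `VB(v, k, l)` design exists if and only if `k` or `l (v - 1)`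
is even.

(2) For every `k ≥ 4` there are numbers `L`, `c`, `V` and finite sets `F v` (the same set for all
`v ≥ V`, and the empty set if `k = 4`, `5` or `7`) such that the following holds for all `l ≥ L` and
all `v ≥ k + 2`.  If `k` or `l (v - 1)` is even and `d` is the least number for which `k - 1` divides
`2 d + l (v - 1)`, then an integer `b` with `(k - 1) b ≤ (l - c) C` is the number of blocks of a
`VB(v, k, l)` design if and only if `l C + d v ≤ b k (k - 1) / 2`.  If `k - 1` divides `l`, then an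
integer `b` is the number of blocks of a `VB(v, k, l)` design if and only if
`l C ≤ b k (k - 1) / 2` and `(k - 1) b ≤ l C` and `l C / (k - 1) - b` is not in `F v`.

(3) For all `v ≥ k ≥ 4` there are `M`, `P` and finite sets `E r`, `G r` such that for all `l ≥ M` with
`k` or `l (v - 1)` even an integer `b` is the number of blocks of a `VB(v, k, l)` design if and only
if `b k (k - 1) / 2 - l C` is not negative and not in `E (l mod P)` and
`(⌊l / (k - 1)⌋ + 1) C - b` is not negative and not in `G (l mod (k - 1))`. -/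
theorem result :
    (∀ k l v : ℕ, 2 ≤ k → 25 * k ^ 3 ≤ l ^ 2 → 2 ≤ v →
      ((∃ b : ℕ, Num v k l b) ↔ (Even k ∨ Even (l * (v - 1))))) ∧
    (∀ k : ℕ, 4 ≤ k → ∃ (L c V : ℕ) (F : ℕ → Finset ℕ),
      (∀ v : ℕ, V ≤ v → F v = F V) ∧
      (k = 4 ∨ k = 5 ∨ k = 7 → ∀ v : ℕ, F v = ∅) ∧
      ∀ l v : ℕ, L ≤ l → k + 2 ≤ v →
        ((Even k ∨ Even (l * (v - 1))) → ∀ d : ℕ,
          IsLeast {d : ℕ | k - 1 ∣ 2 * d + l * (v - 1)} d → ∀ b : ℕ,
          (k - 1) * b + c * v.choose 2 ≤ l * v.choose 2 →
            (Num v k l b ↔ l * v.choose 2 + d * v ≤ b * k.choose 2)) ∧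
        (k - 1 ∣ l → ∀ b : ℕ, Num v k l b ↔
          l * v.choose 2 ≤ b * k.choose 2 ∧ b ≤ l / (k - 1) * v.choose 2 ∧
            l / (k - 1) * v.choose 2 - b ∉ F v)) ∧
    (∀ k v : ℕ, 4 ≤ k → k ≤ v → ∃ (M P : ℕ) (E G : ℕ → Finset ℕ), 0 < P ∧
      ∀ l : ℕ, M ≤ l → (Even k ∨ Even (l * (v - 1))) → ∀ b : ℕ, Num v k l b ↔
        (l * v.choose 2 ≤ b * k.choose 2 ∧ b * k.choose 2 - l * v.choose 2 ∉ E (l % P)) ∧
          b ≤ (l / (k - 1) + 1) * v.choose 2 ∧
            (l / (k - 1) + 1) * v.choose 2 - b ∉ G (l % (k - 1))) := by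
  have hC : ∀ v : ℕ, v.choose 2 = C2 v := fun v => Nat.choose_two_right v
  have hnum : ∀ k : ℕ, 4 ≤ k → ∀ v l b : ℕ, Num v k l b ↔ NB k l v b := by
    intro k hk v l b
    constructor
    · rintro ⟨D, hD, rfl⟩
      exact nb_link (by omega : 0 < k) hD
    · exact fun h => link_nb h
  refine ⟨fun k l v hk hl hv => ?_, fun k hk => ?_, fun k v hk hv => ?_⟩
  · rw [← Pool.Agent.Helper53.BN.Spec.spectrum k hk l hl v hv]
    constructor
    · rintro ⟨b, D, hD, -⟩
      exact ⟨D, hD⟩
    · rintro ⟨D, hD⟩
      exact ⟨_, D, hD, rfl⟩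
  · obtain ⟨c, hc, L1, h1⟩ := Pool.Agent.Helper69.QH.exact_low k hk
    obtain ⟨c', hc'⟩ := exists_nat_ge c
    obtain ⟨L2, V, F, h2, hFV, hF⟩ := Pool.Agent.Helper69.QH.complete k hk
    refine ⟨L1 + L2 + 2, (k - 1) * (c' + 1), V + 2, fun v => if 2 ≤ v then F v else ∅, ?_, ?_, ?_⟩
    · intro v hv
      beta_reduce
      rw [if_pos (by omega), if_pos (by omega), hFV v (by omega), hFV (V + 2) (by omega)]
    · intro hk7 v
      beta_reduce
      split_ifs with hv
      · exact hF hk7 v hv
      · rfl
    · intro l v hl hv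
      constructor
      · intro hadm d hd b hb
        rw [hnum k hk, hC, hC]
        rw [hC] at hb
        obtain ⟨A, -, -, h⟩ := h1 l (by omega)
        refine h (by omega) v hv hadm d hd b ?_
        have h3 := min_le_left (c * ((C2 v : ℕ) : ℝ)) (A * Pool.Agent.Helper69.QG.e2 k l v)
        have h4 := Pool.Agent.Helper69.QB.beta_ge k l (by omega)
        have hCn : (0 : ℝ) ≤ ((C2 v : ℕ) : ℝ) := Nat.cast_nonneg _
        have h5 : b + (c' + 1) * C2 v ≤ (l / (k - 1) + 1) * C2 v := by
          have hk1 : 0 < k - 1 := by omega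
          have h6 : l ≤ (k - 1) * (l / (k - 1) + 1) := by
            have := Nat.div_add_mod l (k - 1)
            have := Nat.mod_lt l hk1
            rw [Nat.mul_add, Nat.mul_one]
            omega
          have h7 := Nat.mul_le_mul_right (C2 v) h6
          refine Nat.le_of_mul_le_mul_left ?_ hk1
          calc (k - 1) * (b + (c' + 1) * C2 v) = (k - 1) * b + (k - 1) * (c' + 1) * C2 v := by ring
            _ ≤ l * C2 v := hb
            _ ≤ (k - 1) * (l / (k - 1) + 1) * C2 v := h7
            _ = _ := by ring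
        have h8 : (b : ℝ) + ((c' : ℝ) + 1) * ((C2 v : ℕ) : ℝ) ≤
            (((l / (k - 1) : ℕ) : ℝ) + 1) * ((C2 v : ℕ) : ℝ) := by
          exact_mod_cast h5
        have h9 := mul_le_mul_of_nonneg_right h4 hCn
        have h10 := mul_le_mul_of_nonneg_right hc' hCn
        nlinarith
      · intro hkl b
        beta_reduce
        rw [hnum k hk, hC, hC, if_pos (by omega)]
        exact h2 l (by omega) hkl v hv b
  · obtain ⟨M, P, E, G, hP, h⟩ := Pool.Agent.Helper69.QH.complete_two k v hk (by omega)
    refine ⟨M, P, E, G, hP, fun l hl hadm b => ?_⟩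
    have h1 := h l hl hadm b
    rw [Pool.Agent.Helper53.BN.qq_large (by omega) hv] at h1
    rw [hnum k hk, hC, hC]
    exact h1

end Pool.Agent.Results.MP_e0c419_co.LargeConcurrence
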